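import Pool.Agent.Lib.MP_a78e1f_lc.U.Iface
import Pool.Agent.Lib.MP_a78e1f_lc.H35.Extend
import Mathlib.Combinatorics.Colex

/-!
# Sacks forcing: definitions and statements of the modules, part 4

Names of functions from `ℕ` to `ℕ` are as in `Pool.Agent.Lib.MP_6d445e_gt.Base` (`IsFN`, `fv`).
A finite set of natural numbers is coded by a natural number, so a slalom is a function.  The
proofs are in `Paper4.md`.
-/

universe u v w

open Cardinal Filter MeasureTheory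

open scoped symmDiff

namespace Pool.Agent.Lib.MP_a78e1f_lc

open Pool.Agent.Lib.MP_100a6c_lc
open Pool.Agent.Lib.MP_e6fef2_lc
open Pool.Agent.Lib.MP_6d445e_gt (Idw Ult ae IsFN fv Cmp)

/-! ## Slaloms as names of functions -/

/-- The finite set with code `n`. -/
def dS (n : ℕ) : Finset ℕ := Finset.equivBitIndices n

section

variable {A C : Type u} [CompleteBooleanAlgebra A] [CompleteBooleanAlgebra C]

/-- The Boolean value of: the functions `Z` (over `A`) and `F` (over `C`) agree below `k`. -/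
def agrF (f : A → C) (Z : ℕ → ℕ → A) (F : ℕ → ℕ → C) (k : ℕ) : C :=
  ⨅ p, ⨅ _ : p < k, ⨆ j, f (Z p j) ⊓ F p j

/-- The Boolean value of: `Z` is an interpretation of `F` below `c`. -/
def itpF (f : A → C) (c : C) (F : ℕ → ℕ → C) (Z : ℕ → ℕ → A) : A :=
  ⨅ k, prj f (c ⊓ agrF f Z F k)

/-- On `a`, `F p` has at most `(p + 2) ^ j` elements. -/
def SlF (j : ℕ) (a : A) (F : ℕ → ℕ → A) : Prop :=
  ∀ᶠ g in ae A, a ∈ g → ∀ p, (dS (fv F g p)).card ≤ (p + 2) ^ j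

/-- The Boolean value of: `F p ⊆ S p` for all `p ≥ n`. -/
def capF (n : ℕ) (S F : ℕ → ℕ → A) : A :=
  ⨅ p, ⨅ _ : n ≤ p, ⨆ i, ⨆ j, ⨆ _ : dS i ⊆ dS j, F p i ⊓ S p j

/-- The Boolean value of: the ultrafilter is generic over `N`, and `S` captures the slaloms of the
extension of `N`. -/
def gcF (N : Set El.{u}) (S : ℕ → ℕ → A) : A :=
  gen A N ⊓ ⨅ F : ℕ → ℕ → A, ⨅ _ : In N F, ⨅ _ : IsFN F ∧ ∃ j, SlF j ⊤ F, ⨆ n, capF n S F

/-- The name of the slalom `F p ∪ F' p` (for `k ≤ p`), `F p` (for `p < k`). -/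
def uniF (F F' : ℕ → ℕ → A) (k p m : ℕ) : A :=
  ⨆ i, ⨆ j, ⨆ _ : (if k ≤ p then dS i ∪ dS j else dS i) = dS m, F p i ⊓ F' p j

/-- `C` is an extension of `A` which preserves capturing slaloms. -/
def PRESS (f : A → C) : Prop :=
  ∀ᶠ N in club, ∀ (S : ℕ → ℕ → A) (c : C) (F : ℕ → ℕ → C) (Z : ℕ → ℕ → A), IsFN S → In N c →
    In N F → IsFN F → (∃ j, SlF j ⊤ F) → In N Z → IsFN Z →
      gcF N S ⊓ itpF f c F Z ⊓ capF 0 S Z ≤
        prj f (gcF N (fun p m => f (S p m)) ⊓ c ⊓ capF 0 (fun p m => f (S p m)) F)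

/-- The hypotheses on states, good values and steps (two successors). -/
structure PHyp2 {X : Type u} (nd : X → List ℕ) (gd : X → A) (ed : X → X → X → A) : Prop where
  bin : ∀ s, gd s ≠ ⊥ → ∀ i ∈ nd s, i = 0 ∨ i = 1
  le : ∀ s s' s'', ed s s' s'' ≤ gd s' ⊓ gd s''
  node : ∀ s s' s'', ed s s' s'' ≠ ⊥ → nd s <+: nd s' ∧ nd s <+: nd s'' ∧ ¬ Cmp (nd s') (nd s'')
  ex : ∀ s, gd s ≤ ⨆ s', ⨆ s'', ed s s' s''

end

/-- The width of the slaloms. -/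
def wS (p : ℕ) : ℕ := (p + 2) ^ (p + 1) + 1

/-- The Sacks property of `B`: every name of a function is captured by a slalom of the ground
universe. -/
def SkP (B : Type u) [CompleteBooleanAlgebra B] : Prop := ∀ F : ℕ → ℕ → B, IsFN F → ∀ b : B,
  b ≠ ⊥ → ∃ b', b' ≠ ⊥ ∧ b' ≤ b ∧ ∃ S : ℕ → Finset ℕ, (∀ p, (S p).card ≤ wS p) ∧
    ∀ᶠ h in ae B, b' ∈ h → ∀ p, fv F h p ∈ S p

/-- ITPF: basic facts. -/
def ItpfStatement : Prop := ∀ (A C : Type u) [CompleteBooleanAlgebra A]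
  [CompleteBooleanAlgebra C] (f : A → C), IsCE f →
  (∀ Z F k, IsFN Z → IsFN F → ∀ᶠ h in ae C, agrF f Z F k ∈ h ↔
    ∀ p < k, fv (fun n m => f (Z n m)) h p = fv F h p) ∧
  (∀ Z F k k', k ≤ k' → agrF f Z F k' ≤ agrF f Z F k) ∧
  (∀ c F Z, itpF f c F Z ≤ prj f c) ∧
  (∀ c c' F Z, c ≤ c' → itpF f c F Z ≤ itpF f c' F Z) ∧
  (∀ c F Z a, itpF f (c ⊓ f a) F Z = itpF f c F Z ⊓ a) ∧
  (∀ c F Z Y k, IsFN F → IsFN Z → IsFN Y → c ≤ agrF f Y F k →
    itpF f c F Z ≤ agrF (fun a : A => a) Y Z k) ∧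
  (∀ c F Z j, IsFN F → IsFN Z → SlF j c F → SlF j (itpF f c F Z) Z) ∧
  (∀ Z, IsFN Z → IsFN fun p m => f (Z p m)) ∧
  (∀ n S F, f (capF n S F) = capF n (fun p m => f (S p m)) fun p m => f (F p m)) ∧
  (∀ n (S F : ℕ → ℕ → A), IsFN S → IsFN F → ∀ᶠ g in ae A, capF n S F ∈ g ↔
    ∀ p, n ≤ p → dS (fv F g p) ⊆ dS (fv S g p)) ∧
  (∀ (F F' : ℕ → ℕ → A) k, IsFN F → IsFN F' → IsFN (uniF F F' k) ∧
    ∀ᶠ g in ae A, ∀ p, dS (fv (uniF F F' k) g p) =
      if k ≤ p then dS (fv F g p) ∪ dS (fv F' g p) else dS (fv F g p)) ∧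
  (∀ N : Set El.{u}, N.Countable → ∀ S : ℕ → ℕ → A, ∀ᶠ g in ae A, gcF N S ∈ g ↔
    gen A N ∈ g ∧ ∀ F : ℕ → ℕ → A, In N F → IsFN F → (∃ j, SlF j ⊤ F) → ∃ n, capF n S F ∈ g)

/-- LBF: an interpretation which follows a given name as long as possible. -/
def LbfStatement : Prop := ∀ (A C : Type u) [CompleteBooleanAlgebra A]
  [CompleteBooleanAlgebra C] (f : A → C), IsCE f → ∀ (c : C) (F : ℕ → ℕ → C) (Y : ℕ → ℕ → A),
    IsFN F → IsFN Y → ∃ Z : ℕ → ℕ → A, IsFN Z ∧ prj f c ≤ itpF f c F Z ∧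
      ∀ k, prj f (c ⊓ agrF f Y F k) ≤ agrF (fun a : A => a) Y Z k

/-- ITP2F: interpretations and composition. -/
def Itp2fStatement : Prop := ∀ (A B C : Type u) [CompleteBooleanAlgebra A]
  [CompleteBooleanAlgebra B] [CompleteBooleanAlgebra C] (f : A → B) (g : B → C), IsCE f → IsCE g →
  ∀ (c : C) (F : ℕ → ℕ → C) (Z : ℕ → ℕ → A) (F' : ℕ → ℕ → B),
    (∀ k, prj g (c ⊓ agrF (fun a => g (f a)) Z F k) ≤ agrF f Z F' k) →
      itpF (fun a => g (f a)) c F Z ≤ itpF f (prj g c) F' Z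

/-- SEQF: the sequence lemma. -/
def SeqfStatement : Prop := ∀ (A T : Type u) [CompleteBooleanAlgebra A], ∀ᶠ N in club,
  ∀ (w : ℕ → T → A) (b : ℕ → T → ℕ → ℕ → A) (Z : ℕ → ℕ → A) (j : ℕ), In N w → In N b →
    In N Z → IsFN Z → (∀ k t, IsFN (b k t)) →
    (∀ k t, w k t ≤ agrF (fun a : A => a) Z (b k t) k) → (∀ k t, SlF j (w k t) (b k t)) →
    ∀ S, IsFN S → ∀ᶠ g in ae A, gcF N S ∈ g → capF 0 S Z ∈ g → (∀ k, (⨆ t, w k t) ∈ g) →
      ∀ m, ∃ k, m ≤ k ∧ ∃ t, In N t ∧ w k t ∈ g ∧ capF 0 S (b k t) ∈ g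

/-- PRCF: composition. -/
def PrcfStatement : Prop := ∀ (A B C : Type u) [CompleteBooleanAlgebra A]
  [CompleteBooleanAlgebra B] [CompleteBooleanAlgebra C] (f : A → B) (g : B → C), IsCE f → IsCE g →
  PRESS f → PRESS g → PRESS (fun a => g (f a))

/-- PRIF: isomorphisms; `PRESS` implies properness. -/
def PrifStatement : Prop := ∀ (A B : Type u) [CompleteBooleanAlgebra A]
  [CompleteBooleanAlgebra B] (f : A → B), IsCE f →
  (Function.Surjective f → PRESS f) ∧ (PRESS f → PE f)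

/-- PRLIMF: preservation at limits. -/
def PrlimfStatement : Prop := ∀ (L : Type u) [LinearOrder L] (A : L → Type u)
  [∀ i, CompleteBooleanAlgebra (A i)] (f : ∀ i j, A i → A j) (C : Type u)
  [CompleteBooleanAlgebra C] (e : ∀ i, A i → C), IsCh A f → IsTop A f e → TP A f e → DP A e →
  (∀ i j, i ≤ j → PRESS (f i j)) → ∀ i, PRESS (e i)

/-- TRSAC: a perfect tree is obtained from a binary tree of states. -/
def TrsacStatement : Prop := ∀ (A : Type u) [CompleteBooleanAlgebra A] (X : Type u)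
  [Countable X] (nd : X → List ℕ) (gd : X → A) (ed : X → X → X → A), PHyp2 nd gd ed →
  ∀ s0 a, a ≤ gd s0 → ∃ (P : List Bool → X → A) (τ : TX IsSac A),
    (∀ᶠ g in ae A, a ∈ g → P [] s0 ∈ g ∧ (∀ ρ, ∃! s, P ρ s ∈ g) ∧
      ∀ ρ s s' s'', P ρ s ∈ g → P (ρ ++ [false]) s' ∈ g → P (ρ ++ [true]) s'' ∈ g →
        ed s s' s'' ∈ g) ∧
    (∀ᶠ h in ae (tC IsSac A), tE IsSac A a ⊓ tG τ ∈ h →
      ∀ g : Ult A, (∀ b, b ∈ g ↔ tE IsSac A b ∈ h) →
        ∃ β : Cs, ∀ n s, P (res β n) s ∈ g → tND (nd s) ∈ h) ∧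
    ∀ σ : TX IsSac A, ∀ᶠ h in ae (tC IsSac A), tE IsSac A a ⊓ tG τ ∈ h →
      ∀ g : Ult A, (∀ b, b ∈ g ↔ tE IsSac A b ∈ h) → ∀ ρ s, P ρ s ∈ g → tND (nd s) ∈ h →
        (∀ ρ' s', ρ <+: ρ' → P ρ' s' ∈ g → σ.1 (nd s') ∈ g) → tG σ ∈ h

/-- PRSAC: Sacks forcing preserves capturing slaloms. -/
def PrsacStatement : Prop := ∀ (A : Type u) [CompleteBooleanAlgebra A], PRESS (tE IsSac A)

/-- SACKP: the Sacks property. -/
def SackpStatement : Prop := ∀ (A B : Type u) [CompleteBooleanAlgebra A]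
  [CompleteBooleanAlgebra B] (f : A → B), IsCE f → (⊥ : A) ≠ ⊤ → (∀ a : A, a = ⊥ ∨ a = ⊤) →
    PRESS f → SkP B

/-- NEWS: the Sacks real is new. -/
def NewsStatement : Prop := ∀ (A : Type u) [CompleteBooleanAlgebra A],
  ∃ R : ℕ → tC IsSac A, ∀ ψ : ℕ → A, eqr R (fun n => tE IsSac A (ψ n)) = ⊥

/-! ## Continuous maps of the Cantor space -/

/-- SCH: as `H35.exists_scheme`, with a continuous decoding. -/
def SchStatement : Prop := ∀ b w : ℕ → ℕ, (∀ n, n ≤ b n) → ∀ S : ℕ → Finset ℕ,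
  (∀ k, (S k).card ≤ w k) → ∃ X : Cs → Cs, Continuous X ∧ ∃ dec : ℕ → Cs → Bool,
    (∀ i, ∃ L, ∀ z z' : Cs, (∀ k < L, z k = z' k) → dec i z = dec i z') ∧
    ∀ g : Cs → Cs, H35.Captured b w S g → ∀ y i, dec i (g (X y)) = y i

/-- The point of the Cantor space with the initial segment `σ` and then zeros. -/
def xz (σ : List Bool) : Cs := fun i => σ.getD i false

/-- The map with approximations `F` maps `x` to `v`. -/
def Lim (F : List Bool → List Bool → Prop) (x v : Cs) : Prop := ∀ n, ∃ k, F (res x k) (res v n)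

/-- Approximations of a partial homeomorphism `F` and its inverse `G`, defined at the points
`xz σ`. -/
structure RelP (F G : List Bool → List Bool → Prop) : Prop where
  cf : ∀ σ σ' τ τ', Cpb σ σ' → F σ τ → F σ' τ' → Cpb τ τ'
  cg : ∀ τ τ' σ σ', Cpb τ τ' → G τ σ → G τ' σ' → Cpb σ σ'
  mf : ∀ σ τ τ', τ <+: τ' → F σ τ' → F σ τ
  mg : ∀ τ σ σ', σ <+: σ' → G τ σ' → G τ σ
  pt : ∀ σ, ∃ v, Lim F (xz σ) v ∧ Lim G v (xz σ)

/-- The open sets whose intersection is the domain. -/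
def Gop (F G : List Bool → List Bool → Prop) (n : ℕ) : Set Cs :=
  {x | ∃ k τ τ', F (res x k) τ ∧ n ≤ τ.length ∧ τ' <+: τ ∧ G τ' (res x n)}

/-- SAA: the domain is a dense `G_δ` set, the map is injective and continuous. -/
def SaaStatement : Prop := ∀ F G : List Bool → List Bool → Prop, RelP F G →
  Antitone (Gop F G) ∧ (∃ ψ, H35.DenseBd ψ (Gop F G)) ∧
  (∀ x, (∀ n, x ∈ Gop F G n) → ∃! v, Lim F x v) ∧
  (∀ x v, (∀ n, x ∈ Gop F G n) → Lim F x v → ∀ n, ∃ m, ∀ x' v', (∀ n, x' ∈ Gop F G n) →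
    Lim F x' v' → (∀ i < m, x' i = x i) → ∀ i < n, v' i = v i) ∧
  ∀ x x' v, (∀ n, x ∈ Gop F G n) → (∀ n, x' ∈ Gop F G n) → Lim F x v → Lim F x' v → x = x'

/-- SAB: for an algebra with the Sacks property, a name of a partial homeomorphism, some condition
and some continuous map `Ξ` of the ground universe, the point `y` can be computed from the image
of `Ξ y`. -/
def SabStatement : Prop := ∀ (B : Type u) [CompleteBooleanAlgebra B], SkP B → ∀ Γ : B, Γ ≠ ⊥ →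
  ∀ F G : List Bool → List Bool → B,
    (∀ᶠ h in ae B, Γ ∈ h → RelP (fun σ τ => F σ τ ∈ h) fun τ σ => G τ σ ∈ h) →
    ∃ b, b ≠ ⊥ ∧ b ≤ Γ ∧ ∃ Ξ : Cs → Cs, Continuous Ξ ∧ ∃ dec : ℕ → Cs → Bool,
      (∀ i, ∃ L, ∀ z z' : Cs, (∀ k < L, z k = z' k) → dec i z = dec i z') ∧
      ∀ᶠ h in ae B, b ∈ h → ∀ y v : Cs, Lim (fun σ τ => F σ τ ∈ h) (Ξ y) v → ∀ i, dec i v = y i

/-- TNES: no embedding, for the extension by an iteration of Sacks forcing. -/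
def TnesStatement : Prop := ∀ (κ : Cardinal.{u}) (I : Type u) [LinearOrder I] [WellFoundedLT I],
  Idw κ I → Bit.{u} IsSac → ∀ (A : I → Type u)
  [∀ i, CompleteBooleanAlgebra (A i)] (f : ∀ i j, A i → A j) (B : Type u)
  [CompleteBooleanAlgebra B] (e : ∀ i, A i → B), CSI IsSac A f B e → NoEmb B

end Pool.Agent.Lib.MP_a78e1f_lc
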